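import Pool.Agent.H704.UD.K58.D0a
import Pool.Agent.H704.UD.K58.D0b
import Pool.Agent.H704.UD.K58.D1a
import Pool.Agent.H704.UD.K58.D1b

set_option linter.style.longLine false

namespace Pool.Agent.H704.UD.K58

open Pool.Agent.H704.UD

theorem main : ∃ B : Set (EuclideanSpace ℝ (Fin 2)),
      (∀ x ∉ B, ∀ y ∉ B, dist x y ≠ 1) ∧
      ∀ x v : EuclideanSpace ℝ (Fin 2), ‖v‖ = 1 → ¬ ∀ i : ℕ, i < 58 → x + (i : ℝ) • v ∈ B := by
  have r0 := D0a.all
  have r0 := r0.glue D0b.all
  have r1 := D1a.all
  have r1 := r1.glue D1b.all
  exact geom (S := 1000000) (T := 1048576) (A := 6712914) (C := 9595792) (h := 500000)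
    (PX := 10038174058816480767532037175564938750362898144110995406766689087843666638691280364444470554044429287)
    (PX' := 45972365518937382039517591179840880812146015587337579892842130953605599319378559193627771534659943019)
    (PY := 4795383635835791830869140788381624251057386252536962368812504211123187560351238900507749775223200845) (N := 14) (K := 58)
    rfl (by decide) (by decide) D0a.hx D0a.hy (by decide) (by decide) (sepC_of (by decide +kernel))
    (by decide +kernel) r0 r1

end Pool.Agent.H704.UD.K58
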